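import Mathlib

/-!
# H39HN: a Hénon map has at most `2 ^ n` points fixed by its `n`-th iterate
-/

set_option autoImplicit false

namespace Pool.Agent.Lib.H39HN

section Abstract

variable {ι S : Type} [Fintype ι] [DecidableEq ι] (c : ι → S → ℝ)

/-- squarefree monomials -/
private def M (A : Finset ι) : S → ℝ := fun z => ∏ i ∈ A, c i z

private def V : Submodule ℝ (S → ℝ) := Submodule.span ℝ (Set.range (M c))

private lemma M_mem (A : Finset ι) : M c A ∈ V c := Submodule.subset_span ⟨A, rfl⟩

private lemma mul_M_mem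
    (h : ∀ i, ∃ (α β γ : ℝ) (j k : ι), ∀ z, c i z ^ 2 = α + β * c j z + γ * c k z) :
    ∀ m : ℕ, ∀ A : Finset ι, A.card = m → ∀ i, (fun z => c i z * M c A z) ∈ V c := by
  intro m
  induction m using Nat.strong_induction_on with
  | _ m ih =>
    intro A hA i
    by_cases hi : i ∈ A
    · obtain ⟨α, β, γ, j, k, hz⟩ := h i
      have hlt : (A.erase i).card < m := by
        rw [← hA]; exact Finset.card_erase_lt_of_mem hi
      have e : (fun z => c i z * M c A z) = α • M c (A.erase i) +
          β • (fun z => c j z * M c (A.erase i) z) + γ • (fun z => c k z * M c (A.erase i) z) := by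
        funext z
        have h1 : M c A z = c i z * M c (A.erase i) z := by
          unfold M
          exact (Finset.mul_prod_erase A (fun i => c i z) hi).symm
        simp only [Pi.add_apply, Pi.smul_apply, smul_eq_mul]
        rw [h1]
        have := hz z
        linear_combination (M c (A.erase i) z) * this
      rw [e]
      exact Submodule.add_mem _ (Submodule.add_mem _ (Submodule.smul_mem _ _ (M_mem c _))
        (Submodule.smul_mem _ _ (ih _ hlt _ rfl j))) (Submodule.smul_mem _ _ (ih _ hlt _ rfl k))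
    · have e : (fun z => c i z * M c A z) = M c (insert i A) := by
        funext z
        unfold M
        rw [Finset.prod_insert hi]
      rw [e]
      exact M_mem c _

private lemma mul_mem
    (h : ∀ i, ∃ (α β γ : ℝ) (j k : ι), ∀ z, c i z ^ 2 = α + β * c j z + γ * c k z)
    (i : ι) (g : S → ℝ) (hg : g ∈ V c) : (fun z => c i z * g z) ∈ V c := by
  unfold V at hg
  induction hg using Submodule.span_induction with
  | mem x hx =>
    obtain ⟨A, rfl⟩ := hx
    exact mul_M_mem c h _ A rfl i
  | zero =>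
    have : (fun z => c i z * (0 : S → ℝ) z) = 0 := by funext z; simp
    rw [this]; exact Submodule.zero_mem _
  | add x y _ _ hx hy =>
    have : (fun z => c i z * (x + y) z) = (fun z => c i z * x z) + (fun z => c i z * y z) := by
      funext z; simp [mul_add]
    rw [this]; exact Submodule.add_mem _ hx hy
  | smul r x _ hx =>
    have : (fun z => c i z * (r • x) z) = r • (fun z => c i z * x z) := by
      funext z; simp only [Pi.smul_apply, smul_eq_mul]; ring
    rw [this]; exact Submodule.smul_mem _ _ hx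

private lemma bump
    (h : ∀ i, ∃ (α β γ : ℝ) (j k : ι), ∀ z, c i z ^ 2 = α + β * c j z + γ * c k z)
    (hsep : ∀ z w, (∀ i, c i z = c i w) → z = w) (t : S) (T : Finset S) (hT : t ∉ T) :
    ∃ g ∈ V c, g t ≠ 0 ∧ ∀ s ∈ T, g s = 0 := by
  classical
  induction T using Finset.induction_on with
  | empty =>
    refine ⟨M c ∅, M_mem c _, ?_, by simp⟩
    simp [M]
  | insert s T hs ih =>
    simp only [Finset.mem_insert, not_or] at hT
    obtain ⟨g, hg, h1, h2⟩ := ih hT.2
    have hne : ∃ i, c i t ≠ c i s := by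
      by_contra hcon
      push Not at hcon
      exact hT.1 (hsep t s hcon)
    obtain ⟨i, hi⟩ := hne
    refine ⟨(fun z => c i z * g z) - (c i s) • g, Submodule.sub_mem _ (mul_mem c h i g hg)
      (Submodule.smul_mem _ _ hg), ?_, ?_⟩
    · simp only [Pi.sub_apply, Pi.smul_apply, smul_eq_mul]
      rw [← sub_mul]
      exact mul_ne_zero (sub_ne_zero.2 hi) h1
    · intro s' hs'
      simp only [Finset.mem_insert] at hs'
      simp only [Pi.sub_apply, Pi.smul_apply, smul_eq_mul]
      rcases hs' with rfl | hs'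
      · ring
      · rw [h2 s' hs']; ring

private theorem card_le
    (h : ∀ i, ∃ (α β γ : ℝ) (j k : ι), ∀ z, c i z ^ 2 = α + β * c j z + γ * c k z)
    (hsep : ∀ z w, (∀ i, c i z = c i w) → z = w) (T : Finset S) :
    T.card ≤ 2 ^ Fintype.card ι := by
  classical
  have key : ∀ t : T, ∃ g ∈ V c, g (t : S) ≠ 0 ∧ ∀ s ∈ T.erase (t : S), g s = 0 := fun t =>
    bump c h hsep t (T.erase t) (Finset.notMem_erase _ _)
  choose g hg h1 h2 using key
  have : FiniteDimensional ℝ (V c) := by
    unfold V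
    exact FiniteDimensional.span_of_finite ℝ (Set.finite_range _)
  have hli : LinearIndependent ℝ (fun t : T => (⟨g t, hg t⟩ : V c)) := by
    rw [Fintype.linearIndependent_iff]
    intro r hr s
    have e := congrArg (fun x : V c => (x : S → ℝ) (s : S)) hr
    simp only [Submodule.coe_sum, Submodule.coe_smul, Finset.sum_apply, Pi.smul_apply, smul_eq_mul,
      Submodule.coe_zero, Pi.zero_apply] at e
    rw [Finset.sum_eq_single s] at e
    · exact (mul_eq_zero.1 e).resolve_right (h1 s)
    · intro t _ hts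
      rw [h2 t s (Finset.mem_erase.2 ⟨fun hh => hts (Subtype.ext hh.symm), s.2⟩), mul_zero]
    · intro hh; exact absurd (Finset.mem_univ _) hh
  have h3 := hli.fintype_card_le_finrank
  have h4 : Module.finrank ℝ (V c) ≤ Fintype.card (Finset ι) := finrank_range_le_card (M c)
  rw [Fintype.card_finset] at h4
  rw [Fintype.card_coe] at h3
  exact h3.trans h4

end Abstract

/-- At most `2 ^ n` points of the plane are fixed by the `n`-th iterate of the Hénon map. -/
theorem fix_finite (a b : ℝ) (n : ℕ) (hn : 0 < n) :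
    {z : ℝ × ℝ | (fun z : ℝ × ℝ => (a - z.1 ^ 2 - b * z.2, z.1))^[n] z = z}.Finite ∧
    {z : ℝ × ℝ | (fun z : ℝ × ℝ => (a - z.1 ^ 2 - b * z.2, z.1))^[n] z = z}.ncard ≤ 2 ^ n := by
  classical
  set f : ℝ × ℝ → ℝ × ℝ := fun z : ℝ × ℝ => (a - z.1 ^ 2 - b * z.2, z.1) with hf
  set S : Set (ℝ × ℝ) := {z : ℝ × ℝ | f^[n] z = z} with hS
  let c : Fin n → S → ℝ := fun i z => (f^[i.val] (z : ℝ × ℝ)).1
  have hper : ∀ z : S, Function.IsPeriodicPt f n (z : ℝ × ℝ) := fun z => z.2
  have hprev : ∀ (z : S) (m : ℕ), (f^[m] (z : ℝ × ℝ)).2 = (f^[(m + (n - 1)) % n] (z : ℝ × ℝ)).1 := by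
    intro z m
    rw [(hper z).iterate_mod_apply]
    have h1 : f^[m] (z : ℝ × ℝ) = f^[m + n] (z : ℝ × ℝ) := by
      rw [← (hper z).iterate_mod_apply (m + n), ← (hper z).iterate_mod_apply m, Nat.add_mod_right]
    have h2 : m + n = (m + (n - 1)) + 1 := by omega
    rw [h1, h2, Function.iterate_succ_apply']
  have hrel : ∀ i, ∃ (α β γ : ℝ) (j k : Fin n), ∀ z, c i z ^ 2 = α + β * c j z + γ * c k z := by
    intro i
    refine ⟨a, -1, -b, ⟨(i.val + 1) % n, Nat.mod_lt _ hn⟩,
      ⟨(i.val + (n - 1)) % n, Nat.mod_lt _ hn⟩, fun z => ?_⟩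
    have h1 := hprev z i.val
    have h2 : (f^[(i.val + 1) % n] (z : ℝ × ℝ)).1 =
        a - (f^[i.val] (z : ℝ × ℝ)).1 ^ 2 - b * (f^[i.val] (z : ℝ × ℝ)).2 := by
      rw [(hper z).iterate_mod_apply, Function.iterate_succ_apply']
    show (f^[i.val] (z : ℝ × ℝ)).1 ^ 2 = a + -1 * (f^[(i.val + 1) % n] (z : ℝ × ℝ)).1 +
      -b * (f^[(i.val + (n - 1)) % n] (z : ℝ × ℝ)).1
    rw [h2, ← h1]
    ring
  have hsep : ∀ z w : S, (∀ i, c i z = c i w) → z = w := by
    intro z w hzw
    have h0 := hzw ⟨0, hn⟩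
    have h1 := hzw ⟨(0 + (n - 1)) % n, Nat.mod_lt _ hn⟩
    have e1 := hprev z 0
    have e2 := hprev w 0
    have h1' : (f^[(0 + (n - 1)) % n] (z : ℝ × ℝ)).1 = (f^[(0 + (n - 1)) % n] (w : ℝ × ℝ)).1 := h1
    have h0' : (f^[0] (z : ℝ × ℝ)).1 = (f^[0] (w : ℝ × ℝ)).1 := h0
    apply Subtype.ext
    apply Prod.ext
    · simpa using h0'
    · rw [← e1, ← e2] at h1'
      simpa using h1'
  have hT : ∀ T : Finset S, T.card ≤ 2 ^ n := fun T => by
    have := card_le c hrel hsep T
    rwa [Fintype.card_fin] at this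
  have hfin : Finite S := by
    by_contra hinf
    rw [not_finite_iff_infinite] at hinf
    obtain ⟨T, hT'⟩ := Infinite.exists_subset_card_eq S (2 ^ n + 1)
    have := hT T
    omega
  have hSf : S.Finite := Set.toFinite S
  refine ⟨hSf, ?_⟩
  have := Fintype.ofFinite S
  have := hT Finset.univ
  rw [← Nat.card_coe_set_eq, Nat.card_eq_fintype_card]
  simpa using this

end Pool.Agent.Lib.H39HN
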